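import Pool.Agent.Lib.MP_a17b09_nt.QT.AllM_99
import Pool.Agent.Lib.MP_a17b09_nt.QT.Shift_99
import Pool.Agent.Lib.MP_a17b09_nt.UW.UnwC64

/-!
Let `f t = a t ^ 2 + b t + c` be an integer quadratic polynomial with `a > 0` whose discriminant is
not a square.  If `d ∣ f t` then `d ∣ f (t + j d)` for all `j`; let `e j = |f (t + j d)| / d`.
Consider the divisors `d` of `f t` with `t / B ≤ d ≤ t`, `B` large.  For most `t` (weighted by the
number of these `d`) the number `e j`, `j ≥ 1`, behaves like a random integer (sizes of the large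
prime factors, `Ω` modulo `k`) which is independent of the types of `d` and `e 0` and of `h d`, for
every multiplicative `h` with `|h| ≤ 1`.  Consequently `d`, `e l`, `e j` with `0 ≤ l < j` behave
like three independent random integers.
-/

set_option autoImplicit false

open Filter Topology

namespace Pool.Agent.Results.MP_a17b09_nt.DivisorShifts

/-- A set of natural numbers has upper Banach logarithmic density zero: for every `ε > 0` and all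
large `H`, the sum of `1 / n` over the `n` of the set with `N < n ≤ 2 ^ H N` is at most `ε H` for
all large `N`. -/
def LogNull (E : Set ℕ) : Prop :=
  ∀ ε : ℝ, 0 < ε → ∃ H₀ : ℕ, ∀ H : ℕ, H₀ ≤ H → ∃ N₀ : ℕ, ∀ N : ℕ, N₀ ≤ N →
    ∑ n ∈ Finset.Ioc N (2 ^ H * N), E.indicator (fun n => (1 : ℝ) / n) n ≤ ε * H

/-- The absolute value of `f n = a n ^ 2 + b n + c`. -/
def val (a b c : ℤ) (n : ℕ) : ℕ := (a * (n : ℤ) ^ 2 + b * n + c).natAbs

/-- The number `e j = |f (t + j d)| / d`. -/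
def cof (a b c : ℤ) (t d j : ℕ) : ℕ := val a b c (t + j * d) / d

/-- The divisors `d` of `f t` with `t / B ≤ d ≤ t`. -/
noncomputable def dv (a b c : ℤ) (B : ℝ) (t : ℕ) : Finset ℕ :=
  (val a b c t).divisors.filter (fun d => (t : ℝ) / B ≤ d ∧ d ≤ t)

open Classical in
/-- The number of these `d` with `P d`. -/
noncomputable def near (a b c : ℤ) (B : ℝ) (t : ℕ) (P : ℕ → Prop) : ℕ :=
  ((dv a b c B t).filter P).card

/-- The number of pairs `(t, d)` with `1 ≤ t ≤ N`, `d ∣ f t`, `t / B ≤ d ≤ t` and `P t d`. -/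
noncomputable def pairs (a b c : ℤ) (B : ℝ) (P : ℕ → ℕ → Prop) (N : ℕ) : ℕ :=
  ∑ t ∈ Finset.Icc 1 N, near a b c B t (P t)

/-- A type of integers, given by finitely many windows `(u i, v i]`, `u i > 0`, and a set `S` of
vectors. -/
structure Kind where
  m : ℕ
  u : Fin m → ℝ
  v : Fin m → ℝ
  pos : ∀ i, 0 < u i
  S : Set (Fin m → ℕ)

/-- The number of primes `p ∣ n` with `n ^ u < p ≤ n ^ v`. -/
noncomputable def cnt (u v : ℝ) (n : ℕ) : ℕ :=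
  Set.ncard {p : ℕ | p.Prime ∧ p ∣ n ∧ (n : ℝ) ^ u < p ∧ (p : ℝ) ≤ (n : ℝ) ^ v}

/-- The vector of the numbers of prime factors of `n` in the windows lies in `S`. -/
def Kind.Is (T : Kind) (n : ℕ) : Prop := (fun i => cnt (T.u i) (T.v i) n) ∈ T.S

/-- The set of the `n ≥ 1` of the type `T` has the natural density `δ`. -/
def HasDensity (T : Kind) (δ : ℝ) : Prop :=
  Tendsto (fun N : ℕ => (Set.ncard {n : ℕ | 1 ≤ n ∧ n ≤ N ∧ T.Is n} : ℝ) / N) atTop (𝓝 δ)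

/-- Multiplicative (`h (m n) = h m h n` for coprime `m`, `n`) and bounded by `1`. -/
def BMul (h : ℕ → ℂ) : Prop :=
  (∀ m n : ℕ, m ≠ 0 → n ≠ 0 → m.Coprime n → h (m * n) = h m * h n) ∧ ∀ n, ‖h n‖ ≤ 1

open Classical in
/-- The function `h d (1 - δ / k)` or `- h d δ / k` of the pairs with `T d`, `T' (e 0)`, according
to whether `T'' (e j)` and `Ω (e j) ≡ s` modulo `k` or not. -/
noncomputable def dev (a b c : ℤ) (T T' T'' : Kind) (δ : ℝ) (k j s : ℕ) (h : ℕ → ℂ) (t d : ℕ) :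
    ℂ :=
  if T.Is d ∧ T'.Is (cof a b c t d 0) then
    h d * ((if T''.Is (cof a b c t d j) ∧
      ArithmeticFunction.cardFactors (cof a b c t d j) ≡ s [MOD k] then 1 else 0) - δ / k)
  else 0

/-- The conditions `T d`, `T' (e l)`, `T'' (e j)` and `(Ω d, Ω (e l), Ω (e j)) ≡ (r, s, q)` modulo
`k`. -/
def Sel (a b c : ℤ) (T T' T'' : Kind) (k l j r s q t d : ℕ) : Prop :=
  T.Is d ∧ T'.Is (cof a b c t d l) ∧ T''.Is (cof a b c t d j) ∧
  ArithmeticFunction.cardFactors d ≡ r [MOD k] ∧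
  ArithmeticFunction.cardFactors (cof a b c t d l) ≡ s [MOD k] ∧
  ArithmeticFunction.cardFactors (cof a b c t d j) ≡ q [MOD k]

/-- For all large `N` at least `c' N` pairs `(t, d)` with `t ≤ N`, `c' > 0`, have the property `P`,
and for every `ε > 0` and all large `N` at least `N / (log N) ^ (log 2 + ε)` different `t ≤ N`
belong to such pairs. -/
def Many (a b c : ℤ) (B : ℝ) (P : ℕ → ℕ → Prop) : Prop :=
  (∃ c' : ℝ, 0 < c' ∧ ∀ᶠ N : ℕ in atTop, c' * N ≤ (pairs a b c B P N : ℝ)) ∧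
  ∀ ε : ℝ, 0 < ε → ∀ᶠ N : ℕ in atTop, (N : ℝ) / Real.log N ^ (Real.log 2 + ε) ≤
    (Set.ncard {t : ℕ | 1 ≤ t ∧ t ≤ N ∧ ∃ d ∈ dv a b c B t, P t d} : ℝ)

theorem dv_eq (a b c : ℤ) (B : ℝ) (t : ℕ) :
    dv a b c B t = Lib.MP_a17b09_nt.CH.nearG a b c (1 / B) 1 t := by
  unfold dv Lib.MP_a17b09_nt.CH.nearG
  refine Finset.filter_congr fun d _ => ?_
  rw [one_mul, div_mul_eq_mul_div, one_mul, Nat.cast_le]

theorem near_eq (a b c : ℤ) (B : ℝ) (t : ℕ) (P : ℕ → Prop) :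
    near a b c B t P = Lib.MP_a17b09_nt.QT.nd a b c B t P := by
  unfold near Lib.MP_a17b09_nt.QT.nd
  rw [dv_eq]

theorem pairs_eq {a b c : ℤ} (hD : ¬ IsSquare (b ^ 2 - 4 * a * c)) (B : ℝ) (P : ℕ → ℕ → Prop)
    (N : ℕ) : pairs a b c B P N = Lib.MP_a17b09_nt.CH.pairCount a b c 1 0 (1 / B) 1 P N := by
  classical
  rw [Lib.MP_a17b09_nt.SPH.FinA11.count_eq (Lib.MP_a17b09_nt.TP79.fv_ne hD),
    Lib.MP_a17b09_nt.QT.filt_one]
  unfold pairs
  refine Finset.sum_congr rfl fun t _ => ?_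
  rw [near_eq, Lib.MP_a17b09_nt.QT.nd]

theorem many_of {a b c : ℤ} (ha : 0 < a) (hD : ¬ IsSquare (b ^ 2 - 4 * a * c)) {B : ℝ}
    (hB : 1 < B) {P : ℕ → ℕ → Prop} (hP : ∃ c' : ℝ, 0 < c' ∧ ∀ᶠ N : ℕ in atTop, c' * N ≤
      (Lib.MP_a17b09_nt.CH.pairCount a b c 1 0 (1 / B) 1 P N : ℝ)) : Many a b c B P := by
  classical
  have hB0 : 0 < B := by linarith
  obtain ⟨c', hc', hev⟩ := hP
  refine ⟨⟨c', hc', ?_⟩, fun ε hε => ?_⟩
  · filter_upwards [hev] with N hN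
    rw [pairs_eq hD]
    exact hN
  · filter_upwards [Lib.MP_a17b09_nt.UW.U64.unwD a b c ha hD 1 0 (1 / B) 1 (by positivity)
      (by rw [div_lt_one hB0]; exact hB) P hc' hev hε] with N hN
    refine hN.trans (le_of_eq ?_)
    congr 1
    rw [← Set.ncard_coe_finset]
    congr 1
    ext t
    simp only [Finset.coe_filter, Finset.mem_Icc, Set.mem_ofPred_eq, and_assoc]
    refine and_congr_right fun _ => and_congr_right fun _ => ?_
    rw [dv_eq, Lib.MP_a17b09_nt.CH.nearG]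
    constructor
    · rintro ⟨-, d, h1, h2, h3, h4⟩
      refine ⟨d, Finset.mem_filter.2 ⟨Nat.mem_divisors.2 ⟨?_,
        Int.natAbs_ne_zero.2 (Lib.MP_a17b09_nt.TP79.fv_ne hD t)⟩, h2, h3⟩, h4⟩
      rw [← Int.natCast_dvd_natCast, Int.dvd_natAbs]
      exact h1
    · rintro ⟨d, hd, h2⟩
      obtain ⟨h3, h4, h5⟩ := Finset.mem_filter.1 hd
      refine ⟨Nat.modEq_one, d, ?_, h4, h5, h2⟩
      have h6 := (Nat.mem_divisors.1 h3).1
      rw [← Int.natCast_dvd_natCast, Int.dvd_natAbs] at h6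
      exact h6

theorem dev_eq (a b c : ℤ) (T T' T'' : Kind) (δ : ℝ) (k j s : ℕ) (h : ℕ → ℂ) (t d : ℕ) :
    dev a b c T T' T'' δ k j s h t d = h d * Lib.MP_a17b09_nt.QT.gT a b c
      (Lib.MP_a17b09_nt.AN.Ty T.u T.v T.S) (Lib.MP_a17b09_nt.AN.Ty T'.u T'.v T'.S) t d *
      Lib.MP_a17b09_nt.QT.iT (Lib.MP_a17b09_nt.AN.Ty T''.u T''.v T''.S) δ k s
        (Lib.MP_a17b09_nt.AS.cf a b c t d j) := by
  classical
  have e1 : Lib.MP_a17b09_nt.QT.gT a b c (Lib.MP_a17b09_nt.AN.Ty T.u T.v T.S)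
      (Lib.MP_a17b09_nt.AN.Ty T'.u T'.v T'.S) t d =
      if T.Is d ∧ T'.Is (cof a b c t d 0) then 1 else 0 := by
    have h1 : ∀ (Q : ℕ → Prop) (n : ℕ), Lib.MP_a17b09_nt.AN.ind Q n = if Q n then 1 else 0 := by
      intro Q n
      unfold Lib.MP_a17b09_nt.AN.ind
      by_cases hQ : Q n
      · simp [hQ]
      · simp [hQ]
    have h2 : Lib.MP_a17b09_nt.QT.gT a b c (Lib.MP_a17b09_nt.AN.Ty T.u T.v T.S)
      (Lib.MP_a17b09_nt.AN.Ty T'.u T'.v T'.S) t d =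
        (if T.Is d then 1 else 0) * (if T'.Is (cof a b c t d 0) then 1 else 0) := by
      unfold Lib.MP_a17b09_nt.QT.gT
      rw [h1, h1]
      rfl
    rw [h2]
    by_cases g1 : T.Is d <;> by_cases g2 : T'.Is (cof a b c t d 0) <;> simp [g1, g2]
  rw [e1, dev]
  by_cases g1 : T.Is d ∧ T'.Is (cof a b c t d 0)
  · rw [if_pos g1, if_pos g1, mul_one, Lib.MP_a17b09_nt.QT.iT]
    rfl
  · rw [if_neg g1, if_neg g1, mul_zero, zero_mul]

theorem result (a b c : ℤ) (ha : 0 < a) (hD : ¬ IsSquare (b ^ 2 - 4 * a * c)) :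
    ∃ κ : ℝ, 0 < κ ∧
      (∀ B : ℝ, 1 < B → Tendsto (fun N : ℕ => (pairs a b c B (fun _ _ => True) N : ℝ) / N) atTop
        (𝓝 (κ * Real.log B))) ∧
      ∀ (T T' T'' : Kind) (δ'' : ℝ), HasDensity T'' δ'' → ∀ k : ℕ, 0 < k →
        (∀ j : ℕ, 0 < j → ∀ ε : ℝ, 0 < ε → ∃ B₀ : ℝ, ∀ B : ℝ, B₀ ≤ B →
          LogNull {N : ℕ | ∃ (s : ℕ) (h : ℕ → ℂ), BMul h ∧ ε * Real.log B * N <
            ∑ t ∈ Finset.Icc 1 N, ‖∑ d ∈ dv a b c B t, dev a b c T T' T'' δ'' k j s h t d‖}) ∧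
        ∀ δ δ' : ℝ, HasDensity T δ → HasDensity T' δ' → ∀ l j : ℕ, l < j →
          (∀ ε : ℝ, 0 < ε → ∃ B₀ : ℝ, ∀ B : ℝ, B₀ ≤ B →
            LogNull {N : ℕ | ∃ r s q : ℕ, ε * Real.log B * N <
              |(pairs a b c B (Sel a b c T T' T'' k l j r s q) N : ℝ) -
                δ * δ' * δ'' * κ * Real.log B / k ^ 3 * N|}) ∧
          (0 < δ → 0 < δ' → 0 < δ'' → ∃ B₀ : ℝ, ∀ B : ℝ, B₀ ≤ B → ∀ r s q : ℕ,
            Many a b c B (Sel a b c T T' T'' k l j r s q)) := by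
  have hf := Lib.MP_a17b09_nt.TP79.fv_ne hD
  obtain ⟨κ, hκ⟩ := Lib.MP_a17b09_nt.QT.stKap_3 a b c ha hD
  have hT := Lib.MP_a17b09_nt.QT.threeS_all99 a b c ha hD κ hκ
  refine ⟨κ, hκ.1, fun B hB => ?_, fun T T' T'' δ'' hδ'' k hk => ⟨fun j hj ε hε => ?_,
    fun δ δ' hδ hδ' l j hlj => ⟨fun ε hε => ?_, fun h0 h0' h0'' => ?_⟩⟩⟩
  · have hB0 : 0 < B := by linarith
    have h1 := hκ.2.1 (1 / B) 1 (by positivity) (by rw [div_lt_one hB0]; exact hB)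
    rw [one_div_one_div] at h1
    refine h1.congr fun N => ?_
    have h2 := Lib.MP_a17b09_nt.SPH.FinA11.count_eq (h := 1) (t₀ := 0) (α := 1 / B) (β := 1) hf
      (fun _ _ => True) N
    rw [Lib.MP_a17b09_nt.QT.filt_one] at h2
    simp only [Finset.filter_true] at h2
    rw [pairs_eq hD, h2]
  · obtain ⟨B1, -, g1⟩ := Lib.MP_a17b09_nt.QT.lawMT_99 a b c ha hD _ _ _ T.u T.v T'.u T'.v T''.u
      T''.v T.S T'.S T''.S δ'' T.pos T'.pos T''.pos hδ'' k hk j hj ε hε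
    refine ⟨B1, fun B hB => Lib.MP_a17b09_nt.CH.EndS.LogNull.mono (g1 B hB) fun N hN => ?_⟩
    obtain ⟨s, h, hh, hN⟩ := hN
    refine ⟨s, h, hh, ?_⟩
    simp only [dev_eq, dv_eq] at hN
    exact hN
  · obtain ⟨B1, -, g1⟩ := hT T.m T'.m T''.m T.u T.v T'.u T'.v T''.u T''.v T.S T'.S T''.S δ δ' δ''
      T.pos T'.pos T''.pos hδ hδ' hδ'' k hk l j hlj ε hε
    refine ⟨B1, fun B hB => Lib.MP_a17b09_nt.CH.EndS.LogNull.mono (g1 B hB) fun N hN => ?_⟩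
    obtain ⟨r, s, q, hN⟩ := hN
    refine ⟨r, s, q, ?_⟩
    rw [pairs_eq hD] at hN
    exact hN
  · obtain ⟨B1, hB1, g1⟩ := Lib.MP_a17b09_nt.QT.threeS_pos hκ.1 hT T.pos T'.pos T''.pos hδ hδ'
      hδ'' h0 h0' h0'' hk hlj
    exact ⟨B1, fun B hB r s q => many_of ha hD (by linarith) (g1 B hB r s q)⟩

end Pool.Agent.Results.MP_a17b09_nt.DivisorShifts
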