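import Pool.Agent.Lib.MP_a17b09_nt.NA.All64

/-!
Let `f(t) = a t^2 + b t + c` with `a > 0` and nonsquare discriminant, let `m, r, s, t₀, h` be
natural numbers with `m, h > 0`. Suppose that either `m` is odd, or `h = 1`, `a` and `b` are coprime
and `r + s` has the parity of `Ω(a)`. Then there are `C` and `κ > 0` such that for every large `N`,
at least `κ N / (log N)^C` of the `t ≤ N` with `t ≡ t₀ mod h` have a factorisation `f(t) = d e` with
`t / C ≤ d ≤ C t` and `t / C ≤ e ≤ C t`, where the numbers of prime factors of `d` and `e`, counted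
with multiplicity, are congruent to `r` and `s` modulo `m`, `d e` has at most `C` prime factors, and
every prime factor of `d e` is at most `C` or larger than `N^(1/C)`.
-/

set_option autoImplicit false

namespace Pool.Agent.Results.MP_a17b09_nt.NearAlmostPrimes

theorem result (a b c : ℤ) (ha : 0 < a) (hΔ : ¬ IsSquare (b ^ 2 - 4 * a * c))
    (m r s t₀ h : ℕ) (hm : 0 < m) (hh : 0 < h)
    (hcase : Odd m ∨ (h = 1 ∧ IsCoprime a b ∧
      r + s ≡ ArithmeticFunction.cardFactors a.natAbs [MOD 2])) :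
    ∃ C : ℕ, 0 < C ∧ ∃ κ : ℝ, 0 < κ ∧ ∃ N₁ : ℕ, ∀ N : ℕ, N₁ ≤ N →
      ∃ S : Finset ℕ, κ * ((N : ℝ) / (Real.log N) ^ C) ≤ (S.card : ℝ) ∧
      ∀ t ∈ S, 1 ≤ t ∧ t ≤ N ∧ t ≡ t₀ [MOD h] ∧
        ∃ d e : ℕ, a * (t : ℤ) ^ 2 + b * (t : ℤ) + c = d * e ∧
          (t ≤ C * d ∧ d ≤ C * t) ∧ (t ≤ C * e ∧ e ≤ C * t) ∧
          ArithmeticFunction.cardFactors d ≡ r [MOD m] ∧
          ArithmeticFunction.cardFactors e ≡ s [MOD m] ∧
          ArithmeticFunction.cardFactors (d * e) ≤ C ∧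
          ∀ q : ℕ, q.Prime → q ∣ d * e → q ≤ C ∨ (N : ℝ) ^ (1 / (C : ℝ)) < q :=
  Pool.Agent.Lib.MP_a17b09_nt.NA.final64
    (Pool.Agent.Lib.MP_a17b09_nt.AM.stPatE_38
      (Pool.Agent.MP_a17b09_nt.OM.ct_fin_even
        (Pool.Agent.MP_a17b09_nt.OM.decoupleC Pool.Agent.MP_a17b09_nt.OM.ed
          Pool.Agent.MP_a17b09_nt.OM.pinsker) Pool.Agent.MP_a17b09_nt.OM.minorC)
      Pool.Agent.MP_a17b09_nt.OM.kap)
    a b c ha hΔ m r s t₀ h hm hh hcase

end Pool.Agent.Results.MP_a17b09_nt.NearAlmostPrimes
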