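import Pool.Agent.Lib.MP_a17b09_nt.AN.All98

/-!
Let `f t = a t ^ 2 + b t + c` be an integer quadratic polynomial with `a > 0` whose discriminant is
not a square.  Over the pairs `(t, d)` with `d ∣ f t` and `α t ≤ d ≤ β t` the numbers `d` and
`|f t| / d` behave like two independent random integers, as far as the sizes of their large prime
factors and the numbers `Ω d`, `Ω (|f t| / d)` modulo `k` are concerned, with an asymptotic count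
`κ N` of all pairs.  In particular `f t` is, up to a factor `e ≤ t ^ δ`, a product of primes of
prescribed sizes (any pattern which splits into two halves: `f t = e p p'`, or all primes `≤ t ^ δ`)
with `Ω (f t)` in a prescribed class modulo `k`, for at least `N / (log N) ^ (log 2 + ε)` of the
`t ≤ N`.
-/

set_option autoImplicit false

open Filter Topology

namespace Pool.Agent.Results.MP_a17b09_nt.NearDivisors

/-- A set of natural numbers has upper Banach logarithmic density zero: for every `ε > 0` and all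
large `H`, the sum of `1 / n` over the `n` of the set with `N < n ≤ 2 ^ H N` is at most `ε H` for
all large `N`. -/
def LogNull (E : Set ℕ) : Prop :=
  ∀ ε : ℝ, 0 < ε → ∃ H₀ : ℕ, ∀ H : ℕ, H₀ ≤ H → ∃ N₀ : ℕ, ∀ N : ℕ, N₀ ≤ N →
    ∑ n ∈ Finset.Ioc N (2 ^ H * N), E.indicator (fun n => (1 : ℝ) / n) n ≤ ε * H

/-- The number of pairs `(t, d)` with `1 ≤ t ≤ N`, `t ≡ t₀ mod h`, `d ∣ f t`, `α t ≤ d ≤ β t` and
`P t d`, where `f t = a t ^ 2 + b t + c`. -/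
noncomputable def pairCount (a b c : ℤ) (h t₀ : ℕ) (α β : ℝ) (P : ℕ → ℕ → Prop) (N : ℕ) : ℕ :=
  ∑ t ∈ (Finset.Icc 1 N).filter (fun t => t ≡ t₀ [MOD h]),
    Set.ncard {d : ℕ | (d : ℤ) ∣ a * (t : ℤ) ^ 2 + b * t + c ∧ α * t ≤ d ∧ d ≤ β * t ∧ P t d}

/-- The number of primes `p ∣ n` with `n ^ u < p ≤ n ^ v`. -/
noncomputable def cnt (u v : ℝ) (n : ℕ) : ℕ :=
  Set.ncard {p : ℕ | p.Prime ∧ p ∣ n ∧ (n : ℝ) ^ u < p ∧ (p : ℝ) ≤ (n : ℝ) ^ v}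

/-- A type of integers, given by finitely many windows `(u i, v i]` and a set `S` of vectors: the
vector of the numbers of prime factors of `n` in the windows lies in `S`. -/
def Typ {m : ℕ} (u v : Fin m → ℝ) (S : Set (Fin m → ℕ)) (n : ℕ) : Prop :=
  (fun i => cnt (u i) (v i) n) ∈ S

/-- The set of the `n ≥ 1` with `A n` has the natural density `δ`. -/
def HasDensity (A : ℕ → Prop) (δ : ℝ) : Prop :=
  Tendsto (fun N : ℕ => (Set.ncard {n : ℕ | 1 ≤ n ∧ n ≤ N ∧ A n} : ℝ) / N) atTop (𝓝 δ)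

/-- The condition of the pairs: `d` is of the type `(u, v, S)`, `|f t| / d` of the type
`(u', v', S')`, and `(Ω d, Ω (|f t| / d))` is `(r, s)` modulo `k`. -/
def Sel (a b c : ℤ) {m m' : ℕ} (u v : Fin m → ℝ) (S : Set (Fin m → ℕ)) (u' v' : Fin m' → ℝ)
    (S' : Set (Fin m' → ℕ)) (k r s t d : ℕ) : Prop :=
  Typ u v S d ∧ Typ u' v' S' ((a * (t : ℤ) ^ 2 + b * t + c).natAbs / d) ∧
  ArithmeticFunction.cardFactors d ≡ r [MOD k] ∧
  ArithmeticFunction.cardFactors ((a * (t : ℤ) ^ 2 + b * t + c).natAbs / d) ≡ s [MOD k]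

theorem result (a b c : ℤ) (ha : 0 < a) (hD : ¬ IsSquare (b ^ 2 - 4 * a * c)) (h t₀ : ℕ)
    (hh : 0 < h) :
    (∀ (m : ℕ) (u v : Fin m → ℝ) (S : Set (Fin m → ℕ)), (∀ i, 0 < u i) →
      ∃ δ : ℝ, HasDensity (Typ u v S) δ) ∧
    (∀ α β : ℝ, 0 < α → α < β → ∃ κ : ℝ, 0 < κ ∧
      Tendsto (fun N : ℕ => (pairCount a b c h t₀ α β (fun _ _ => True) N : ℝ) / N) atTop
        (𝓝 κ) ∧
      ∀ (m m' : ℕ) (u v : Fin m → ℝ) (u' v' : Fin m' → ℝ) (S : Set (Fin m → ℕ))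
        (S' : Set (Fin m' → ℕ)) (δ δ' : ℝ), (∀ i, 0 < u i) → (∀ i, 0 < u' i) →
        HasDensity (Typ u v S) δ → HasDensity (Typ u' v' S') δ' →
        ∀ k : ℕ, 0 < k → ∀ r s : ℕ,
        (∀ ε : ℝ, 0 < ε → LogNull {N : ℕ | ε * N <
          |(pairCount a b c h t₀ α β (Sel a b c u v S u' v' S' k r s) N : ℝ) -
            δ * δ' * κ / k ^ 2 * N|}) ∧
        (0 < δ → 0 < δ' →
          (∃ c' : ℝ, 0 < c' ∧ ∀ᶠ N : ℕ in atTop, c' * N ≤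
            (pairCount a b c h t₀ α β (Sel a b c u v S u' v' S' k r s) N : ℝ)) ∧
          ∀ ε : ℝ, 0 < ε → ∀ᶠ N : ℕ in atTop, (N : ℝ) / Real.log N ^ (Real.log 2 + ε) ≤
            (Set.ncard {t : ℕ | 1 ≤ t ∧ t ≤ N ∧ t ≡ t₀ [MOD h] ∧ ∃ d : ℕ,
              (d : ℤ) ∣ a * (t : ℤ) ^ 2 + b * t + c ∧ α * t ≤ d ∧ d ≤ β * t ∧
              Sel a b c u v S u' v' S' k r s t d} : ℝ))) ∧
    ∀ (m l : ℕ) (x : Fin m → ℝ) (y : Fin l → ℝ), (∀ i, 0 < x i) → (∀ j, 0 < y j) →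
      ∑ i, x i = 1 → ∑ j, y j = 1 → ∀ δ : ℝ, 0 < δ → ∀ k : ℕ, 0 < k → ∀ r : ℕ, ∀ ε : ℝ, 0 < ε →
      ∀ᶠ N : ℕ in atTop, (N : ℝ) / Real.log N ^ (Real.log 2 + ε) ≤
        (Set.ncard {t : ℕ | 1 ≤ t ∧ t ≤ N ∧ t ≡ t₀ [MOD h] ∧
          ∃ (e : ℕ) (p : Fin m → ℕ) (p' : Fin l → ℕ), (∀ i, (p i).Prime) ∧
          (∀ j, (p' j).Prime) ∧
          (∀ i, (t : ℝ) ^ (x i - δ) < p i ∧ (p i : ℝ) < (t : ℝ) ^ (x i + δ)) ∧
          (∀ j, (t : ℝ) ^ (y j - δ) < p' j ∧ (p' j : ℝ) < (t : ℝ) ^ (y j + δ)) ∧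
          (e : ℝ) ≤ (t : ℝ) ^ δ ∧
          a * (t : ℤ) ^ 2 + b * t + c = e * (∏ i, p i) * (∏ j, p' j) ∧
          ArithmeticFunction.cardFactors (e * (∏ i, p i) * (∏ j, p' j)) ≡ r [MOD k]} : ℝ) :=
  Lib.MP_a17b09_nt.AN.finAN Lib.MP_a17b09_nt.AN.stOk_18 Lib.MP_a17b09_nt.AN.stDen_all98 a b c ha
    hD h t₀ (fun α β hα hαβ => Lib.MP_a17b09_nt.AN.pairsA_all98 a b c ha hD h t₀ hh α β hα hαβ)
    (Lib.MP_a17b09_nt.AN.argsX_all98 a b c ha hD h t₀ hh)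

end Pool.Agent.Results.MP_a17b09_nt.NearDivisors
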