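import Pool.Agent.Lib.MP_a17b09_nt.QT.SixS79
import Pool.Agent.Lib.MP_a17b09_nt.QT.RichT79
import Pool.Agent.Lib.MP_a17b09_nt.UW.UnwC64
import Pool.Agent.Lib.MP_a17b09_nt.AN.SAll3

/-!
Let `f t = a t ^ 2 + b t + c` be an integer quadratic polynomial with `a > 0` whose discriminant is
not a square.  If `d ∣ f t` then `d` divides all the values `f (t + j d)`.  We consider `Ω` at the
values of `f` on the progressions `t + j d`, where `d ∣ f t` and `t / B ≤ d ≤ t`, and on walks which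
consist of such steps `t → t + j d`:
* on most of the progressions `t, t + d, ..., t + (J - 1) d`, `J` large, `Ω (f (t + j d))` is
  equidistributed modulo `k`;
* all eight parity patterns of `Ω` at `f (t + l d)`, `f (t + (l + j) d)`, `f (t + (l + 2 j) d)`
  occur, each for at least about `1 / 16` of the pairs `(t, d)`, also if the type of `d` and `Ω d`
  modulo `k` are prescribed (`B` large);
* for most `t` every finite tree with the root `t`, whose edges are `t → t + j d`, `j ≤ J`, and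
  whose vertices have prescribed classes of `Ω (f t)` modulo `k`, can be found (`B` large).
-/

set_option autoImplicit false

open Filter Topology

namespace Pool.Agent.Results.MP_a17b09_nt.SignPatterns

/-- A set of natural numbers has upper Banach logarithmic density zero: for every `ε > 0` and all
large `H`, the sum of `1 / n` over the `n` of the set with `N < n ≤ 2 ^ H N` is at most `ε H` for
all large `N`. -/
def LogNull (E : Set ℕ) : Prop :=
  ∀ ε : ℝ, 0 < ε → ∃ H₀ : ℕ, ∀ H : ℕ, H₀ ≤ H → ∃ N₀ : ℕ, ∀ N : ℕ, N₀ ≤ N →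
    ∑ n ∈ Finset.Ioc N (2 ^ H * N), E.indicator (fun n => (1 : ℝ) / n) n ≤ ε * H

/-- The absolute value of `f n = a n ^ 2 + b n + c`. -/
def val (a b c : ℤ) (n : ℕ) : ℕ := (a * (n : ℤ) ^ 2 + b * n + c).natAbs

/-- The number `e j = |f (t + j d)| / d`. -/
def cof (a b c : ℤ) (t d j : ℕ) : ℕ := val a b c (t + j * d) / d

/-- The divisors `d` of `f t` with `t / B ≤ d ≤ t`. -/
noncomputable def dv (a b c : ℤ) (B : ℝ) (t : ℕ) : Finset ℕ :=
  (val a b c t).divisors.filter (fun d => (t : ℝ) / B ≤ d ∧ d ≤ t)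

open Classical in
/-- The number of these `d` with `P d`. -/
noncomputable def near (a b c : ℤ) (B : ℝ) (t : ℕ) (P : ℕ → Prop) : ℕ :=
  ((dv a b c B t).filter P).card

/-- The number of pairs `(t, d)` with `1 ≤ t ≤ N`, `d ∣ f t`, `t / B ≤ d ≤ t` and `P t d`. -/
noncomputable def pairs (a b c : ℤ) (B : ℝ) (P : ℕ → ℕ → Prop) (N : ℕ) : ℕ :=
  ∑ t ∈ Finset.Icc 1 N, near a b c B t (P t)

/-- A type of integers, given by finitely many windows `(u i, v i]`, `u i > 0`, and a set `S` of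
vectors. -/
structure Kind where
  m : ℕ
  u : Fin m → ℝ
  v : Fin m → ℝ
  pos : ∀ i, 0 < u i
  S : Set (Fin m → ℕ)

/-- The number of primes `p ∣ n` with `n ^ u < p ≤ n ^ v`. -/
noncomputable def cnt (u v : ℝ) (n : ℕ) : ℕ :=
  Set.ncard {p : ℕ | p.Prime ∧ p ∣ n ∧ (n : ℝ) ^ u < p ∧ (p : ℝ) ≤ (n : ℝ) ^ v}

/-- The vector of the numbers of prime factors of `n` in the windows lies in `S`. -/
def Kind.Is (T : Kind) (n : ℕ) : Prop := (fun i => cnt (T.u i) (T.v i) n) ∈ T.S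

/-- The set of the `n ≥ 1` of the type `T` has the natural density `δ`. -/
def HasDensity (T : Kind) (δ : ℝ) : Prop :=
  Tendsto (fun N : ℕ => (Set.ncard {n : ℕ | 1 ≤ n ∧ n ≤ N ∧ T.Is n} : ℝ) / N) atTop (𝓝 δ)

open Classical in
/-- The number of `j < J` with `T (e j)` and `Ω (f (t + j d)) ≡ r` modulo `k`. -/
noncomputable def num (a b c : ℤ) (T : Kind) (J k r t d : ℕ) : ℕ :=
  ((Finset.range J).filter (fun j => T.Is (cof a b c t d j) ∧
    ArithmeticFunction.cardFactors (val a b c (t + j * d)) ≡ r [MOD k])).card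

/-- The conditions `T d`, `Ω d ≡ w` modulo `k`, and `Ω ≡ r, s, u` modulo `2` at `f (t + l d)`,
`f (t + (l + j) d)`, `f (t + (l + 2 j) d)`. -/
def Pat (a b c : ℤ) (T : Kind) (k l j w r s u t d : ℕ) : Prop :=
  (T.Is d ∧ ArithmeticFunction.cardFactors d ≡ w [MOD k]) ∧
  ArithmeticFunction.cardFactors (val a b c (t + l * d)) ≡ r [MOD 2] ∧
  ArithmeticFunction.cardFactors (val a b c (t + (l + j) * d)) ≡ s [MOD 2] ∧
  ArithmeticFunction.cardFactors (val a b c (t + (l + 2 * j) * d)) ≡ u [MOD 2]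

/-- Every `t` is `0`-rich; `t` is `(l + 1)`-rich if for all `0 < j ≤ J` and all classes `r, s`
modulo `k` at least `R` divisors `d` of `f t` with `t / B ≤ d ≤ t` have `Ω d ≡ r`,
`Ω (f (t + j d)) ≡ s`, an `e j` of the type `T` and an `l`-rich `t + j d`. -/
def Rich (a b c : ℤ) (T : Kind) (k J R : ℕ) (B : ℝ) : ℕ → ℕ → Prop
  | 0, _ => True
  | l + 1, t => ∀ j : ℕ, 0 < j → j ≤ J → ∀ r s : ℕ, R ≤ near a b c B t (fun d =>
      ArithmeticFunction.cardFactors d ≡ r [MOD k] ∧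
      ArithmeticFunction.cardFactors (val a b c (t + j * d)) ≡ s [MOD k] ∧
      T.Is (cof a b c t d j) ∧ Rich a b c T k J R B l (t + j * d))

/-- For all large `N` at least `c' N` pairs `(t, d)` with `t ≤ N`, `c' > 0`, have the property `P`,
and for every `ε > 0` and all large `N` at least `N / (log N) ^ (log 2 + ε)` different `t ≤ N`
belong to such pairs. -/
def Many (a b c : ℤ) (B : ℝ) (P : ℕ → ℕ → Prop) : Prop :=
  (∃ c' : ℝ, 0 < c' ∧ ∀ᶠ N : ℕ in atTop, c' * N ≤ (pairs a b c B P N : ℝ)) ∧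
  ∀ ε : ℝ, 0 < ε → ∀ᶠ N : ℕ in atTop, (N : ℝ) / Real.log N ^ (Real.log 2 + ε) ≤
    (Set.ncard {t : ℕ | 1 ≤ t ∧ t ≤ N ∧ ∃ d ∈ dv a b c B t, P t d} : ℝ)

theorem dv_eq (a b c : ℤ) (B : ℝ) (t : ℕ) :
    dv a b c B t = Lib.MP_a17b09_nt.CH.nearG a b c (1 / B) 1 t := by
  unfold dv Lib.MP_a17b09_nt.CH.nearG
  refine Finset.filter_congr fun d _ => ?_
  rw [one_mul, div_mul_eq_mul_div, one_mul, Nat.cast_le]

theorem near_eq (a b c : ℤ) (B : ℝ) (t : ℕ) (P : ℕ → Prop) :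
    near a b c B t P = Lib.MP_a17b09_nt.QT.nd a b c B t P := by
  unfold near Lib.MP_a17b09_nt.QT.nd
  rw [dv_eq]

theorem pairs_eq {a b c : ℤ} (hD : ¬ IsSquare (b ^ 2 - 4 * a * c)) (B : ℝ) (P : ℕ → ℕ → Prop)
    (N : ℕ) : pairs a b c B P N = Lib.MP_a17b09_nt.CH.pairCount a b c 1 0 (1 / B) 1 P N := by
  classical
  rw [Lib.MP_a17b09_nt.SPH.FinA11.count_eq (Lib.MP_a17b09_nt.TP79.fv_ne hD),
    Lib.MP_a17b09_nt.QT.filt_one]
  unfold pairs
  refine Finset.sum_congr rfl fun t _ => ?_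
  rw [near_eq, Lib.MP_a17b09_nt.QT.nd]

theorem many_of {a b c : ℤ} (ha : 0 < a) (hD : ¬ IsSquare (b ^ 2 - 4 * a * c)) {B : ℝ}
    (hB : 1 < B) {P : ℕ → ℕ → Prop} (hP : ∃ c' : ℝ, 0 < c' ∧ ∀ᶠ N : ℕ in atTop, c' * N ≤
      (Lib.MP_a17b09_nt.CH.pairCount a b c 1 0 (1 / B) 1 P N : ℝ)) : Many a b c B P := by
  classical
  have hB0 : 0 < B := by linarith
  obtain ⟨c', hc', hev⟩ := hP
  refine ⟨⟨c', hc', ?_⟩, fun ε hε => ?_⟩
  · filter_upwards [hev] with N hN
    rw [pairs_eq hD]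
    exact hN
  · filter_upwards [Lib.MP_a17b09_nt.UW.U64.unwD a b c ha hD 1 0 (1 / B) 1 (by positivity)
      (by rw [div_lt_one hB0]; exact hB) P hc' hev hε] with N hN
    refine hN.trans (le_of_eq ?_)
    congr 1
    rw [← Set.ncard_coe_finset]
    congr 1
    ext t
    simp only [Finset.coe_filter, Finset.mem_Icc, Set.mem_ofPred_eq, and_assoc]
    refine and_congr_right fun _ => and_congr_right fun _ => ?_
    rw [dv_eq, Lib.MP_a17b09_nt.CH.nearG]
    constructor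
    · rintro ⟨-, d, h1, h2, h3, h4⟩
      refine ⟨d, Finset.mem_filter.2 ⟨Nat.mem_divisors.2 ⟨?_,
        Int.natAbs_ne_zero.2 (Lib.MP_a17b09_nt.TP79.fv_ne hD t)⟩, h2, h3⟩, h4⟩
      rw [← Int.natCast_dvd_natCast, Int.dvd_natAbs]
      exact h1
    · rintro ⟨d, hd, h2⟩
      obtain ⟨h3, h4, h5⟩ := Finset.mem_filter.1 hd
      refine ⟨Nat.modEq_one, d, ?_, h4, h5, h2⟩
      have h6 := (Nat.mem_divisors.1 h3).1
      rw [← Int.natCast_dvd_natCast, Int.dvd_natAbs] at h6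
      exact h6

theorem rich_eq (a b c : ℤ) (T : Kind) (k J R : ℕ) (B : ℝ) (l : ℕ) : ∀ t : ℕ,
    Rich a b c T k J R B l t ↔ Lib.MP_a17b09_nt.QT.RichT a b c
      (Lib.MP_a17b09_nt.AN.Ty T.u T.v T.S) k J R B l t := by
  induction l with
  | zero => exact fun t => Iff.rfl
  | succ l ih =>
    intro t
    have h1 : ∀ j r s : ℕ, near a b c B t (fun d =>
        ArithmeticFunction.cardFactors d ≡ r [MOD k] ∧
        ArithmeticFunction.cardFactors (val a b c (t + j * d)) ≡ s [MOD k] ∧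
        T.Is (cof a b c t d j) ∧ Rich a b c T k J R B l (t + j * d)) =
        Lib.MP_a17b09_nt.QT.nd a b c B t (fun d =>
          Lib.MP_a17b09_nt.CH.Omn d ≡ r [MOD k] ∧
          Lib.MP_a17b09_nt.CH.Om a b c (t + j * d) ≡ s [MOD k] ∧
          Lib.MP_a17b09_nt.AN.Ty T.u T.v T.S (Lib.MP_a17b09_nt.AS.cf a b c t d j) ∧
          Lib.MP_a17b09_nt.QT.RichT a b c (Lib.MP_a17b09_nt.AN.Ty T.u T.v T.S) k J R B l
            (t + j * d)) := by
      intro j r s
      rw [near_eq]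
      congr 1
      funext d
      rw [propext (ih (t + j * d))]
      rfl
    constructor
    · intro h j hj hJ r s
      rw [← h1]
      exact h j hj hJ r s
    · intro h j hj hJ r s
      rw [h1]
      exact h j hj hJ r s

theorem result (a b c : ℤ) (ha : 0 < a) (hD : ¬ IsSquare (b ^ 2 - 4 * a * c)) :
    ∃ κ : ℝ, 0 < κ ∧
      (∀ B : ℝ, 1 < B → Tendsto (fun N : ℕ => (pairs a b c B (fun _ _ => True) N : ℝ) / N) atTop
        (𝓝 (κ * Real.log B))) ∧
      ∀ (T : Kind) (δ : ℝ), HasDensity T δ → ∀ k : ℕ, 0 < k →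
        (∀ J : ℕ, 0 < J → ∀ η : ℝ, 0 < η → ∀ B : ℝ, 1 < B → ∀ ε : ℝ, 0 < ε →
          LogNull {N : ℕ | (δ / (η ^ 2 * J) + ε) * (κ * Real.log B) * N <
            (pairs a b c B (fun t d => ∃ r : ℕ,
              η * J < |(num a b c T J k r t d : ℝ) - J * δ / k|) N : ℝ)}) ∧
        (∀ l j : ℕ, 0 < j →
          (∀ ε : ℝ, 0 < ε → ∃ B₀ : ℝ, ∀ B : ℝ, B₀ ≤ B → ∀ w r s u : ℕ,
            LogNull {N : ℕ | (pairs a b c B (Pat a b c T k l j w r s u) N : ℝ) <
              (δ / (16 * k) - ε) * (κ * Real.log B) * N}) ∧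
          (0 < δ → ∃ B₀ : ℝ, ∀ B : ℝ, B₀ ≤ B → ∀ w r s u : ℕ,
            Many a b c B (Pat a b c T k l j w r s u))) ∧
        (0 < δ → ∀ J R l : ℕ,
          (∀ ε : ℝ, 0 < ε → ∃ B₀ : ℝ, ∀ B : ℝ, B₀ ≤ B → LogNull {N : ℕ | ε * Real.log B * N <
            (pairs a b c B (fun t _ => ¬ Rich a b c T k J R B l t) N : ℝ)}) ∧
          ∃ B₀ : ℝ, ∀ B : ℝ, B₀ ≤ B → ∀ q : ℕ, Many a b c B (fun t _ =>
            ArithmeticFunction.cardFactors (val a b c t) ≡ q [MOD k] ∧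
              Rich a b c T k J R B l t)) := by
  have hf := Lib.MP_a17b09_nt.TP79.fv_ne hD
  obtain ⟨κ, hκ⟩ := Lib.MP_a17b09_nt.QT.stKap_3 a b c ha hD
  have hT := Lib.MP_a17b09_nt.QT.three_all79 a b c ha hD κ hκ
  have hc : ∀ B : ℝ, 1 < B → Tendsto (fun N : ℕ => (pairs a b c B (fun _ _ => True) N : ℝ) / N)
      atTop (𝓝 (κ * Real.log B)) := by
    intro B hB
    have hB0 : 0 < B := by linarith
    have h1 := hκ.2.1 (1 / B) 1 (by positivity) (by rw [div_lt_one hB0]; exact hB)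
    rw [one_div_one_div] at h1
    refine h1.congr fun N => ?_
    have h2 := Lib.MP_a17b09_nt.SPH.FinA11.count_eq (h := 1) (t₀ := 0) (α := 1 / B) (β := 1) hf
      (fun _ _ => True) N
    rw [Lib.MP_a17b09_nt.QT.filt_one] at h2
    simp only [Finset.filter_true] at h2
    rw [pairs_eq hD, h2]
  have hsix : ∀ (T : Kind) (δ : ℝ), HasDensity T δ → ∀ k : ℕ, 0 < k → ∀ l j : ℕ, 0 < j →
      ∀ ε : ℝ, 0 < ε → ∃ B₀ : ℝ, 2 ≤ B₀ ∧ ∀ B : ℝ, B₀ ≤ B → ∀ w r s u : ℕ,
        LogNull {N : ℕ | (pairs a b c B (Pat a b c T k l j w r s u) N : ℝ) <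
          (δ / (16 * k) - ε) * (κ * Real.log B) * N} := by
    intro T δ hδ k hk l j hj ε hε
    obtain ⟨B1, hB1, g1⟩ := Lib.MP_a17b09_nt.QT.six_s hf hκ hT T.pos hδ hk l hj hε
    refine ⟨max B1 2, le_max_right _ _, fun B hB w r s u => ?_⟩
    have h1 := g1 B ((le_max_left _ _).trans hB) w r s u
    have e1 : δ / (16 * k) = δ / k / 16 := by
      rw [div_div, mul_comm]
    simp only [pairs_eq hD, e1]
    exact h1
  refine ⟨κ, hκ.1, hc, fun T δ hδ k hk => ⟨fun J hJ η hη B hB ε hε => ?_,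
    fun l j hj => ⟨fun ε hε => ?_, fun h0 => ?_⟩, fun h0 J R l => ⟨fun ε hε => ?_, ?_⟩⟩⟩
  · have hB0 : 0 < B := by linarith
    obtain ⟨κ', hκ', h1, -, h3⟩ := Lib.MP_a17b09_nt.AS.shortT_all3 a b c ha hD 1 0 one_pos
      (1 / B) 1 (by positivity) (by rw [div_lt_one hB0]; exact hB)
    have e1 : κ' = κ * Real.log B := by
      refine tendsto_nhds_unique h1 ?_
      refine (hc B hB).congr fun N => ?_
      rw [pairs_eq hD]
    have h4 := (h3 T.m T.u T.v T.S δ T.pos hδ k hk J hJ η hη).1 ε hε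
    rw [e1] at h4
    simp only [pairs_eq hD]
    exact h4
  · obtain ⟨B1, -, g1⟩ := hsix T δ hδ k hk l j hj ε hε
    exact ⟨B1, g1⟩
  · have hk0 : (0 : ℝ) < k := by exact_mod_cast hk
    obtain ⟨B1, hB1, g1⟩ := hsix T δ hδ k hk l j hj (δ / (32 * k)) (by positivity)
    refine ⟨B1, fun B hB w r s u => many_of ha hD (by linarith) ?_⟩
    have hlB : 0 < Real.log B := Real.log_pos (by linarith)
    have hκ0 := hκ.1
    refine Lib.MP_a17b09_nt.SP.EndP27.lower_all' (κ := δ / (32 * k) * (κ * Real.log B))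
      (fun m n hmn => Nat.cast_le.2 (Lib.MP_a17b09_nt.TP79.pc_mono _ hmn)) (by positivity)
      (Lib.MP_a17b09_nt.CH.EndS.LogNull.mono (g1 B hB w r s u) fun N hN => ?_)
    rw [Set.mem_ofPred_eq] at hN ⊢
    have e1 : δ / (16 * k) - δ / (32 * k) = δ / (32 * (k : ℝ)) := by
      field_simp
      ring
    rw [e1, pairs_eq hD]
    exact hN
  · obtain ⟨B1, -, g1⟩ := Lib.MP_a17b09_nt.QT.richT_wt ha hD T.pos hδ h0 hk J R l hε
    refine ⟨B1, fun B hB => ?_⟩
    simp only [pairs_eq hD, rich_eq]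
    exact g1 B hB
  · obtain ⟨B1, hB1, g1⟩ := Lib.MP_a17b09_nt.QT.richT_pos ha hD T.pos hδ h0 hk J R l
    refine ⟨B1, fun B hB q => many_of ha hD (by linarith) ?_⟩
    simp only [rich_eq]
    exact g1 B hB q

end Pool.Agent.Results.MP_a17b09_nt.SignPatterns
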